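import Pool.Agent.T9h62.PW.Sum

/-! Trigonometric polynomials: means over the circle. -/
set_option autoImplicit false
open MeasureTheory Filter Topology Complex Finset
open scoped Real

namespace Pool.Agent.T9h62.PW

noncomputable section

/-- orthogonality -/
lemma orth (m : ℤ) : (1 / (2 * π) : ℂ) * ∫ θ in (0:ℝ)..(2 * π), Complex.exp (m * θ * I) =
    if m = 0 then 1 else 0 := by
  have hp : (2 * π : ℂ) ≠ 0 := by
    have := Real.pi_pos
    exact_mod_cast (by positivity : (2 * π : ℝ) ≠ 0)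
  by_cases hm : m = 0
  · rw [if_pos hm, hm]
    simp
    field_simp
  · rw [if_neg hm]
    have hc : (m * I : ℂ) ≠ 0 := mul_ne_zero (by exact_mod_cast hm) I_ne_zero
    have h1 : ∀ θ : ℝ, Complex.exp (m * θ * I) = Complex.exp (m * I * θ) := fun θ => by
      congr 1; ring
    simp only [h1]
    rw [integral_exp_mul_complex hc]
    have h2 : Complex.exp (m * I * ((2 * π : ℝ) : ℂ)) = 1 := by
      rw [Complex.exp_eq_one_iff]
      exact ⟨m, by push_cast; ring⟩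
    rw [h2]
    simp

/-- trigonometric polynomials -/
def P (M : ℕ) (x : ℕ → ℂ) (θ : ℝ) : ℂ := ∑ k ∈ range M, x k * Complex.exp (k * θ * I)

lemma P_cont (M : ℕ) (x : ℕ → ℂ) : Continuous (P M x) := by
  unfold P; fun_prop

lemma exp_conj (k : ℕ) (θ : ℝ) : (starRingEnd ℂ) (Complex.exp (k * θ * I)) =
    Complex.exp (-(k * θ * I)) := by
  rw [← Complex.exp_conj]
  congr 1
  simp

lemma parseval (N : ℕ) (b : ℕ → ℂ) :
    (1 / (2 * π)) * ∫ θ in (0:ℝ)..(2 * π), ‖P N b θ‖ ^ 2 = ∑ m ∈ range N, ‖b m‖ ^ 2 := by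
  have h1 : ∀ θ : ℝ, ((‖P N b θ‖ ^ 2 : ℝ) : ℂ) = ∑ m ∈ range N, ∑ k ∈ range N,
      b m * (starRingEnd ℂ) (b k) * Complex.exp ((((m:ℤ) - k : ℤ) : ℂ) * θ * I) := by
    intro θ
    have : ((‖P N b θ‖ ^ 2 : ℝ) : ℂ) = P N b θ * (starRingEnd ℂ) (P N b θ) := by
      rw [Complex.mul_conj, Complex.normSq_eq_norm_sq]
    rw [this]
    unfold P
    rw [map_sum, sum_mul_sum]
    refine sum_congr rfl fun m _ => sum_congr rfl fun k _ => ?_
    rw [map_mul, exp_conj]
    have : Complex.exp ((((m:ℤ) - k : ℤ) : ℂ) * θ * I) =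
        Complex.exp (m * θ * I) * Complex.exp (-(k * θ * I)) := by
      rw [← Complex.exp_add]; congr 1; push_cast; ring
    rw [this]; ring
  have h2 : (((1 / (2 * π)) * ∫ θ in (0:ℝ)..(2 * π), ‖P N b θ‖ ^ 2 : ℝ) : ℂ) =
      ((∑ m ∈ range N, ‖b m‖ ^ 2 : ℝ) : ℂ) := by
    rw [Complex.ofReal_mul, ← intervalIntegral.integral_ofReal]
    simp only [h1]
    rw [intervalIntegral.integral_finsetSum (fun m _ =>
      (Continuous.intervalIntegrable (by fun_prop) _ _)), mul_sum, ofReal_sum]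
    refine sum_congr rfl fun m hm => ?_
    rw [intervalIntegral.integral_finsetSum (fun k _ =>
      (Continuous.intervalIntegrable (by fun_prop) _ _)), mul_sum]
    have h3 : ∀ k ∈ range N, ((1 / (2 * π) : ℝ) : ℂ) * ∫ θ in (0:ℝ)..(2 * π),
        b m * (starRingEnd ℂ) (b k) * Complex.exp ((((m:ℤ) - k : ℤ) : ℂ) * θ * I) =
        if m = k then b m * (starRingEnd ℂ) (b k) else 0 := by
      intro k _
      rw [intervalIntegral.integral_const_mul]
      have h4 := orth ((m:ℤ) - k)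
      have h5 : ((1 / (2 * π) : ℝ) : ℂ) = (1 / (2 * π) : ℂ) := by push_cast; ring
      rw [h5, mul_left_comm, h4]
      by_cases hmk : m = k
      · rw [if_pos hmk, if_pos (by omega), mul_one]
      · rw [if_neg hmk, if_neg (by omega), mul_zero]
    rw [sum_congr rfl h3, sum_ite_eq, if_pos hm, Complex.mul_conj, Complex.normSq_eq_norm_sq]
  exact_mod_cast h2

/-- the coefficients of the square -/
def sqc (M : ℕ) (x : ℕ → ℂ) (m : ℕ) : ℂ :=
  ∑ i ∈ range M, ∑ j ∈ range M, if i + j = m then x i * x j else 0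

lemma P_sq (M : ℕ) (x : ℕ → ℂ) (θ : ℝ) : P M x θ ^ 2 = P (2 * M) (sqc M x) θ := by
  have h1 : P M x θ ^ 2 = ∑ i ∈ range M, ∑ j ∈ range M, x i * x j *
      Complex.exp (((i + j : ℕ) : ℂ) * θ * I) := by
    rw [pow_two]
    unfold P
    rw [sum_mul_sum]
    refine sum_congr rfl fun i _ => sum_congr rfl fun j _ => ?_
    have : Complex.exp (((i + j : ℕ) : ℂ) * θ * I) =
        Complex.exp (i * θ * I) * Complex.exp (j * θ * I) := by
      rw [← Complex.exp_add]; congr 1; push_cast; ring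
    rw [this]; ring
  rw [h1]
  unfold P sqc
  have h2 : ∀ m, (∑ i ∈ range M, ∑ j ∈ range M, if i + j = m then x i * x j else 0) *
      Complex.exp (m * θ * I) = ∑ i ∈ range M, ∑ j ∈ range M,
        if i + j = m then x i * x j * Complex.exp (((i + j : ℕ) : ℂ) * θ * I) else 0 := by
    intro m
    rw [sum_mul]
    refine sum_congr rfl fun i _ => ?_
    rw [sum_mul]
    refine sum_congr rfl fun j _ => ?_
    split_ifs with h
    · rw [h]
    · rw [zero_mul]
  simp only [h2]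
  symm
  rw [sum_comm]
  refine sum_congr rfl fun i hi => ?_
  rw [sum_comm]
  refine sum_congr rfl fun j hj => ?_
  rw [sum_ite_eq, if_pos]
  have := mem_range.1 hi
  have := mem_range.1 hj
  exact mem_range.2 (by omega)

lemma sqc_sum (M : ℕ) (x : ℕ → ℂ) : ((∑ m ∈ range (2 * M), ‖sqc M x m‖ ^ 2 : ℝ) : ℂ) =
    Q4 M (fun i j k l => x i * x j * ((starRingEnd ℂ) (x k) * (starRingEnd ℂ) (x l))) := by
  rw [ofReal_sum]
  have h0 : ∀ m, sqc M x m = ∑ p ∈ range M ×ˢ range M, if p.1 + p.2 = m then x p.1 * x p.2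
      else 0 := by
    intro m
    unfold sqc
    rw [sum_product]
  have h1 : ∀ m, ((‖sqc M x m‖ ^ 2 : ℝ) : ℂ) = ∑ p ∈ range M ×ˢ range M,
      ∑ q ∈ range M ×ˢ range M, if p.1 + p.2 = m then (if q.1 + q.2 = p.1 + p.2 then
        x p.1 * x p.2 * ((starRingEnd ℂ) (x q.1) * (starRingEnd ℂ) (x q.2)) else 0) else 0 := by
    intro m
    have : ((‖sqc M x m‖ ^ 2 : ℝ) : ℂ) = sqc M x m * (starRingEnd ℂ) (sqc M x m) := by
      rw [Complex.mul_conj, Complex.normSq_eq_norm_sq]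
    rw [this, h0, map_sum, sum_mul_sum]
    refine sum_congr rfl fun p _ => sum_congr rfl fun q _ => ?_
    by_cases hp : p.1 + p.2 = m
    · rw [if_pos hp, if_pos hp, hp]
      by_cases hq : q.1 + q.2 = m
      · rw [if_pos hq, if_pos hq, map_mul]
      · rw [if_neg hq, if_neg hq, map_zero, mul_zero]
    · rw [if_neg hp, if_neg hp, zero_mul]
  simp only [h1]
  rw [sum_comm]
  have h2 : ∀ p ∈ range M ×ˢ range M, ∑ m ∈ range (2 * M), ∑ q ∈ range M ×ˢ range M,
      (if p.1 + p.2 = m then (if q.1 + q.2 = p.1 + p.2 then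
        x p.1 * x p.2 * ((starRingEnd ℂ) (x q.1) * (starRingEnd ℂ) (x q.2)) else 0) else 0) =
      ∑ q ∈ range M ×ˢ range M, (if p.1 + p.2 = q.1 + q.2 then
        x p.1 * x p.2 * ((starRingEnd ℂ) (x q.1) * (starRingEnd ℂ) (x q.2)) else 0) := by
    intro p hp
    rw [sum_comm]
    refine sum_congr rfl fun q _ => ?_
    have h3 := mem_product.1 hp
    have h4 := mem_range.1 h3.1
    have h5 := mem_range.1 h3.2
    rw [sum_ite_eq, if_pos (mem_range.2 (by omega))]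
    by_cases hq : q.1 + q.2 = p.1 + p.2
    · rw [if_pos hq, if_pos hq.symm]
    · rw [if_neg hq, if_neg (fun h => hq h.symm)]
  rw [sum_congr rfl h2, sum_product]
  unfold Q4
  refine sum_congr rfl fun i _ => sum_congr rfl fun j _ => ?_
  rw [sum_product]

/-- the mean fourth power of a trigonometric polynomial -/
lemma avg4 (M : ℕ) (x : ℕ → ℂ) :
    (((1 / (2 * π)) * ∫ θ in (0:ℝ)..(2 * π), ‖P M x θ‖ ^ 4 : ℝ) : ℂ) =
    Q4 M (fun i j k l => x i * x j * ((starRingEnd ℂ) (x k) * (starRingEnd ℂ) (x l))) := by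
  rw [← sqc_sum, ← parseval]
  congr 2
  congr 1; funext θ
  rw [← P_sq, norm_pow]; ring

/-- the maximum is bounded by the mean of the fourth power -/
lemma sup4 (M : ℕ) (x : ℕ → ℂ) (θ : ℝ) :
    ‖P M x θ‖ ^ 4 ≤ 2 * M * ((1 / (2 * π)) * ∫ θ in (0:ℝ)..(2 * π), ‖P M x θ‖ ^ 4) := by
  have h1 : (1 / (2 * π)) * ∫ θ in (0:ℝ)..(2 * π), ‖P M x θ‖ ^ 4 =
      ∑ m ∈ range (2 * M), ‖sqc M x m‖ ^ 2 := by
    rw [← parseval]
    congr 2; funext θ
    rw [← P_sq, norm_pow]; ring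
  rw [h1]
  have h2 : ‖P M x θ‖ ^ 4 = ‖P (2 * M) (sqc M x) θ‖ ^ 2 := by
    rw [← P_sq, norm_pow]; ring
  have h3 : ‖P (2 * M) (sqc M x) θ‖ ≤ ∑ m ∈ range (2 * M), ‖sqc M x m‖ := by
    unfold P
    refine (norm_sum_le _ _).trans (le_of_eq (sum_congr rfl fun m _ => ?_))
    rw [norm_mul]
    have : (m * θ * I : ℂ) = ((m * θ : ℝ) : ℂ) * I := by push_cast; ring
    rw [this, Complex.norm_exp_ofReal_mul_I, mul_one]
  have h4 := sum_mul_sq_le_sq_mul_sq (range (2 * M)) (fun _ => (1:ℝ)) (fun m => ‖sqc M x m‖)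
  simp only [one_mul, one_pow, sum_const, card_range, nsmul_eq_mul, mul_one] at h4
  rw [h2]
  refine (pow_le_pow_left₀ (norm_nonneg _) h3 2).trans (h4.trans (le_of_eq ?_))
  push_cast; ring

/-- the mean of the fourth power is bounded by the maximum -/
lemma mean4 (M : ℕ) (x : ℕ → ℂ) {s : ℝ} (hs : ∀ θ, ‖P M x θ‖ ^ 4 ≤ s) {η : ℝ} (hη : 0 < η) :
    (1 / (2 * π)) * (∫ θ in (0:ℝ)..(2 * π), ‖P M x θ‖ ^ 4) ≤
      s / (2 * η) + η / 2 * (M * ∑ k ∈ range M, ‖x k‖ ^ 4) := by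
  have hp := Real.pi_pos
  have hs0 : 0 ≤ s := le_trans (by positivity) (hs 0)
  set r := √s with hr
  have hr0 : 0 ≤ r := Real.sqrt_nonneg _
  have hrs : r ^ 2 = s := Real.sq_sqrt hs0
  have h1 : ∀ θ, ‖P M x θ‖ ^ 2 ≤ r := by
    intro θ
    refine abs_le_of_sq_le_sq' (a := ‖P M x θ‖ ^ 2) ?_ hr0 |>.2
    rw [hrs]
    refine le_trans (le_of_eq ?_) (hs θ)
    ring
  have cP := P_cont M x
  have h2 : (∫ θ in (0:ℝ)..(2 * π), ‖P M x θ‖ ^ 4) ≤
      ∫ θ in (0:ℝ)..(2 * π), r * ‖P M x θ‖ ^ 2 := by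
    refine intervalIntegral.integral_mono_on (by positivity)
      (Continuous.intervalIntegrable (by fun_prop) _ _)
      (Continuous.intervalIntegrable (by fun_prop) _ _) fun θ _ => ?_
    have := mul_le_mul_of_nonneg_right (h1 θ) (sq_nonneg ‖P M x θ‖)
    refine le_trans (le_of_eq ?_) this
    ring
  rw [intervalIntegral.integral_const_mul] at h2
  have h3 : (1 / (2 * π)) * (∫ θ in (0:ℝ)..(2 * π), ‖P M x θ‖ ^ 4) ≤
      r * ∑ m ∈ range M, ‖x m‖ ^ 2 := by
    rw [← parseval]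
    refine (mul_le_mul_of_nonneg_left h2 (by positivity)).trans (le_of_eq ?_)
    ring
  set t := ∑ m ∈ range M, ‖x m‖ ^ 2 with ht
  have h4 := sum_mul_sq_le_sq_mul_sq (range M) (fun _ => (1:ℝ)) (fun m => ‖x m‖ ^ 2)
  simp only [one_mul, one_pow, sum_const, card_range, nsmul_eq_mul, mul_one] at h4
  rw [← ht] at h4
  have h5 : ∑ i ∈ range M, (‖x i‖ ^ 2) ^ 2 = ∑ k ∈ range M, ‖x k‖ ^ 4 :=
    sum_congr rfl fun k _ => by ring
  rw [h5] at h4
  have h6 : r * t ≤ r ^ 2 / (2 * η) + η / 2 * t ^ 2 := by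
    have h7 : 0 ≤ (r - η * t) ^ 2 / (2 * η) := by positivity
    have h8 : (r - η * t) ^ 2 / (2 * η) = r ^ 2 / (2 * η) + η / 2 * t ^ 2 - r * t := by
      field_simp; ring
    linarith
  rw [hrs] at h6
  have h9 := mul_le_mul_of_nonneg_left h4 (by positivity : 0 ≤ η / 2)
  linarith

end

end Pool.Agent.T9h62.PW
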