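import Pool.Agent.T9h62.PW.Lim

/-! The fourth moment and local plane waves. -/
set_option autoImplicit false
open MeasureTheory Filter Topology Complex
open scoped ContDiff Real ENNReal

namespace Pool.Agent.T9h62.PW

open Pool.Agent.W745.RW (TF dx dy lap GG CC eps)
open Pool.Agent.TH294.RS (TF.mulc TF.zero TF.cint)
open Pool.Agent.T9h62.SQ (HH HH_open inv_sm sgn I4 Ar Ar_int Ar_add Ar_nonneg)
open Pool.Agent.Y265.HY (FD FD_eq FW FM hyp_fourth)

noncomputable section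

lemma Q4_cont (M : ℕ) {F : ℂ → ℕ → ℕ → ℕ → ℕ → ℂ}
    (h : ∀ i j k l, ContinuousOn (fun z => F z i j k l) HH) :
    ContinuousOn (fun z => Q4 M (F z)) HH := by
  unfold Q4
  refine continuousOn_finsetSum _ fun i _ => continuousOn_finsetSum _ fun j _ =>
    continuousOn_finsetSum _ fun k _ => continuousOn_finsetSum _ fun l _ => ?_
  by_cases hs : i + j = k + l
  · simp only [if_pos hs]; exact h i j k l
  · simp only [if_neg hs]; exact continuousOn_const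

lemma QQ_cont (M : ℕ) (lam : ℝ) {u : ℂ → ℝ} (hu : ContDiffOn ℝ ∞ u HH) :
    ContinuousOn (QQ M lam (fun w => (u w : ℂ))) HH := by
  have h1 : ContinuousOn (fun z => 1 / (M:ℂ) ^ 4 * Q4 M (fun i j k l =>
      (-1) ^ (k + l) * (FW lam u i z * FW lam u j z * FW lam u (-(k:ℤ)) z *
        FW lam u (-(l:ℤ)) z))) HH := by
    refine continuousOn_const.mul (Q4_cont M fun i j k l => ?_)
    exact continuousOn_const.mul ((((FW_cont lam hu i).mul
      (FW_cont lam hu j)).mul (FW_cont lam hu (-k))).mul (FW_cont lam hu (-l)))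
  refine (Complex.continuous_re.comp_continuousOn h1).congr fun z _ => ?_
  rw [Function.comp, ← QQ_c, ofReal_re]

lemma RR_cont (M : ℕ) (lam : ℝ) {u : ℂ → ℝ} (hu : ContDiffOn ℝ ∞ u HH) :
    ContinuousOn (RR M lam (fun w => (u w : ℂ))) HH := by
  unfold RR
  exact continuousOn_const.mul (continuousOn_finsetSum _ fun k _ => (FDk_cont lam hu k).norm.pow 4)

lemma RR_nonneg (M : ℕ) (lam : ℝ) (f : ℂ → ℂ) (z : ℂ) : 0 ≤ RR M lam f z := by
  unfold RR; positivity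

lemma int_c {ψ : ℂ → ℝ} (hψ : TF HH ψ) {g : ℂ → ℝ} (hg : ContinuousOn g HH) :
    Integrable (fun z => ψ z / z.im ^ 2 * g z) :=
  Pool.Agent.Y265.RW.int_mulr HH_open (tst hψ) hg

/-- upper bound for the maximal plane wave energy -/
lemma lint_up (M : ℕ) (lam : ℝ) {u : ℂ → ℝ} (hu : ContDiffOn ℝ ∞ u HH) {ψ : ℂ → ℝ}
    (hψ : TF HH ψ) (hψ0 : ∀ z, 0 ≤ ψ z) :
    ∫⁻ z, ENNReal.ofReal (ψ z / z.im ^ 2) * SS M lam (fun w => (u w : ℂ)) z ≤
      ENNReal.ofReal (2 * M * PE M lam u ψ) := by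
  have i1 := (int_c hψ (QQ_cont M lam hu)).const_mul (2 * (M:ℝ))
  have e1 : 2 * (M:ℝ) * PE M lam u ψ = ∫ z, 2 * (M:ℝ) * (ψ z / z.im ^ 2 *
      QQ M lam (fun w => (u w : ℂ)) z) := by
    unfold PE
    rw [integral_const_mul]
    congr 1
    congr 1; funext z; ring
  have q0 : ∀ z, 0 ≤ ψ z / z.im ^ 2 := fun z => div_nonneg (hψ0 z) (sq_nonneg _)
  rw [e1, ofReal_integral_eq_lintegral_ofReal i1 (Eventually.of_forall fun z => by
    have := q0 z
    have := QQ_nonneg M lam (fun w => (u w : ℂ)) z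
    simp only [Pi.zero_apply]; positivity)]
  refine lintegral_mono fun z => ?_
  refine (mul_le_mul_right (SS_le M lam _ z) _).trans (le_of_eq ?_)
  rw [← ENNReal.ofReal_mul (q0 z)]
  congr 1; ring

/-- lower bound for the maximal plane wave energy -/
lemma lint_lo {M : ℕ} (hM : 1 ≤ M) (lam : ℝ) {u : ℂ → ℝ} (hu : ContDiffOn ℝ ∞ u HH) {ψ : ℂ → ℝ}
    (hψ : TF HH ψ) (hψ0 : ∀ z, 0 ≤ ψ z) {η B : ℝ} (hη : 0 < η) (hB : 0 ≤ B)
    (h : ∫⁻ z, ENNReal.ofReal (ψ z / z.im ^ 2) * SS M lam (fun w => (u w : ℂ)) z ≤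
      ENNReal.ofReal B) :
    M * PE M lam u ψ ≤ B / (2 * η) + η / 2 *
      ∫ z, ψ z / z.im ^ 2 * RR M lam (fun w => (u w : ℂ)) z := by
  have i1 := (int_c hψ (QQ_cont M lam hu)).const_mul (M:ℝ)
  have i2 := (int_c hψ (RR_cont M lam hu)).const_mul (η / 2)
  have e1 : (M:ℝ) * PE M lam u ψ = ∫ z, (M:ℝ) * (ψ z / z.im ^ 2 *
      QQ M lam (fun w => (u w : ℂ)) z) := by
    unfold PE
    rw [integral_const_mul]
    congr 1
    congr 1; funext z; ring
  have q0 : ∀ z, 0 ≤ ψ z / z.im ^ 2 := fun z => div_nonneg (hψ0 z) (sq_nonneg _)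
  have R0 := RR_nonneg M lam (fun w => (u w : ℂ))
  have I0 : 0 ≤ ∫ z, ψ z / z.im ^ 2 * RR M lam (fun w => (u w : ℂ)) z :=
    integral_nonneg fun z => mul_nonneg (q0 z) (R0 z)
  have h1 : ENNReal.ofReal (M * PE M lam u ψ) ≤ ENNReal.ofReal (B / (2 * η) + η / 2 *
      ∫ z, ψ z / z.im ^ 2 * RR M lam (fun w => (u w : ℂ)) z) := by
    rw [e1, ofReal_integral_eq_lintegral_ofReal i1 (Eventually.of_forall fun z => by
      have := q0 z
      have := QQ_nonneg M lam (fun w => (u w : ℂ)) z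
      simp only [Pi.zero_apply]; positivity)]
    have h2 : ∀ z, ENNReal.ofReal ((M:ℝ) * (ψ z / z.im ^ 2 * QQ M lam (fun w => (u w : ℂ)) z)) ≤
        ENNReal.ofReal (1 / (2 * η)) * (ENNReal.ofReal (ψ z / z.im ^ 2) *
          SS M lam (fun w => (u w : ℂ)) z) +
        ENNReal.ofReal (η / 2 * (ψ z / z.im ^ 2 * RR M lam (fun w => (u w : ℂ)) z)) := by
      intro z
      have h3 := QQ_le hM lam (fun w => (u w : ℂ)) z hη
      have h4 := mul_le_mul_right h3 (ENNReal.ofReal (ψ z / z.im ^ 2))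
      have e2 : ENNReal.ofReal ((M:ℝ) * (ψ z / z.im ^ 2 * QQ M lam (fun w => (u w : ℂ)) z)) =
          ENNReal.ofReal (ψ z / z.im ^ 2) *
            ENNReal.ofReal (M * QQ M lam (fun w => (u w : ℂ)) z) := by
        rw [← ENNReal.ofReal_mul (q0 z)]; congr 1; ring
      have e3 : ENNReal.ofReal (η / 2 * (ψ z / z.im ^ 2 * RR M lam (fun w => (u w : ℂ)) z)) =
          ENNReal.ofReal (ψ z / z.im ^ 2) *
            ENNReal.ofReal (η / 2 * RR M lam (fun w => (u w : ℂ)) z) := by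
        rw [← ENNReal.ofReal_mul (q0 z)]; congr 1; ring
      rw [e2, e3]
      refine h4.trans (le_of_eq ?_)
      rw [mul_add, mul_left_comm]
    refine (lintegral_mono h2).trans ?_
    rw [lintegral_add_right' _ i2.1.aemeasurable.ennreal_ofReal,
      lintegral_const_mul' _ _ ENNReal.ofReal_ne_top,
      ← ofReal_integral_eq_lintegral_ofReal i2 (Eventually.of_forall fun z => by
        have := q0 z
        have := R0 z
        simp only [Pi.zero_apply]; positivity), integral_const_mul,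
      ENNReal.ofReal_add (by positivity) (by positivity)]
    refine add_le_add ?_ le_rfl
    refine (mul_le_mul_right h _).trans (le_of_eq ?_)
    rw [← ENNReal.ofReal_mul (by positivity)]
    congr 1; ring
  exact (ENNReal.ofReal_le_ofReal_iff (by positivity)).1 h1

variable {lam : ℕ → ℝ} {u : ℕ → ℂ → ℝ}

/-- fourth moments of the derivatives -/
lemma RR_lim (H : QE lam u) (M : ℕ) {ψ : ℂ → ℝ} (hψ : TF HH ψ) (hψ0 : ∀ z, 0 ≤ ψ z) {ε : ℝ}
    (hε : 0 < ε) : ∀ᶠ n in atTop,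
    (∫ z, ψ z / z.im ^ 2 * RR M (lam n) (fun w => (u n w : ℂ)) z) ≤ I4 (u n) ψ + ε := by
  have A0 := Ar_nonneg hψ0
  have h1 : ∀ k : ℕ, ∀ᶠ n in atTop, (∫ z, ψ z / z.im ^ 2 *
      ‖(FD (lam n))^[k] (fun w => (u n w : ℂ)) z‖ ^ 4) ≤ I4 (u n) ψ + ε := by
    intro k
    have h2 := H.four hψ (a := k) (b := k) (c := -k) (d := -k) (by ring)
    have e1 : eps k k (-k) (-k) = 1 := by
      unfold eps
      rw [if_pos]; omega
    have e2 : (GG k k (-k) (-k)) = (if k = 0 then (3:ℂ) else 2) := by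
      unfold GG CC
      by_cases hk : k = 0
      · subst hk; simp; norm_num
      · rw [if_neg (c := (k:ℤ) + k = 0) (by omega), if_pos (c := (k:ℤ) + -k = 0) (by omega),
          if_neg hk]
        have := neg_one_sq_pow k
        simp only [Int.natAbs_natCast, zero_mul, zero_add]
        rw [this]; norm_num
    rw [e1, e2] at h2
    have h3 := (Complex.continuous_re.tendsto _).comp h2
    have e3 : ∀ n, FM (lam n) (u n) ψ k k (-k) (-k) = ((∫ z, ψ z / z.im ^ 2 *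
      ‖(FD (lam n))^[k] (fun w => (u n w : ℂ)) z‖ ^ 4 : ℝ) : ℂ) := by
      intro n
      unfold FM
      rw [← integral_complex_ofReal]
      congr 1; funext z
      have c1 := FW_conj (lam n) (u n) k z
      have c2 := FW_nat (lam n) (u n) k z
      have c3 : ((‖(FD (lam n))^[k] (fun w => (u n w : ℂ)) z‖ ^ 2 : ℝ) : ℂ) =
          (FD (lam n))^[k] (fun w => (u n w : ℂ)) z *
          (starRingEnd ℂ) ((FD (lam n))^[k] (fun w => (u n w : ℂ)) z) := by
        rw [Complex.mul_conj, Complex.normSq_eq_norm_sq]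
      have c4 : (‖(FD (lam n))^[k] (fun w => (u n w : ℂ)) z‖ ^ 4) =
          (‖(FD (lam n))^[k] (fun w => (u n w : ℂ)) z‖ ^ 2) *
          (‖(FD (lam n))^[k] (fun w => (u n w : ℂ)) z‖ ^ 2) := by ring
      rw [ofReal_mul, c4, ofReal_mul, c3, c1, c2]
      have := neg_one_sq_pow k
      linear_combination (-((ψ z / z.im ^ 2 : ℝ) : ℂ) * (FW (lam n) (u n) k z *
        FW (lam n) (u n) k z * FW (lam n) (u n) (-k) z * FW (lam n) (u n) (-k) z)) * this
    simp only [Function.comp_def, e3, one_mul, mul_one] at h3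
    have e4 : (((if k = 0 then (3:ℂ) else 2) - 3) * ((Ar ψ : ℝ) : ℂ)).re < ε := by
      split_ifs
      · simp [hε]
      · have : ((2:ℂ) - 3) * ((Ar ψ : ℝ) : ℂ) = ((- Ar ψ : ℝ) : ℂ) := by push_cast; ring
        rw [this, ofReal_re]; linarith
    filter_upwards [h3.eventually (gt_mem_nhds e4)] with n hn
    rw [← ofReal_sub, ofReal_re] at hn
    linarith
  have h4 : ∀ᶠ n in atTop, ∀ k ∈ Finset.range M, (∫ z, ψ z / z.im ^ 2 *
      ‖(FD (lam n))^[k] (fun w => (u n w : ℂ)) z‖ ^ 4) ≤ I4 (u n) ψ + ε := by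
    rw [Filter.eventually_all_finset]
    exact fun k _ => h1 k
  have h5 := H.low hψ hψ0 hε
  filter_upwards [h4, h5] with n hn hl
  have hI : 0 ≤ I4 (u n) ψ + ε := by linarith
  have e5 : (∫ z, ψ z / z.im ^ 2 * RR M (lam n) (fun w => (u n w : ℂ)) z) =
      1 / M * ∑ k ∈ Finset.range M, (∫ z, ψ z / z.im ^ 2 *
      ‖(FD (lam n))^[k] (fun w => (u n w : ℂ)) z‖ ^ 4) := by
    have iK : ∀ k, Integrable (fun z => ψ z / z.im ^ 2 *
        ‖(FD (lam n))^[k] (fun w => (u n w : ℂ)) z‖ ^ 4) := fun k =>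
      int_c hψ ((FDk_cont (lam n) (H.sm n) k).norm.pow 4)
    rw [← integral_finsetSum _ fun k _ => iK k, ← integral_const_mul]
    congr 1; funext z
    unfold RR
    rw [← Finset.mul_sum]; ring
  rw [e5]
  have h6 := Finset.sum_le_sum hn
  rw [Finset.sum_const, Finset.card_range, nsmul_eq_mul] at h6
  by_cases hM : M = 0
  · subst hM; simpa using hI
  · have hM0 : (0:ℝ) < M := by exact_mod_cast Nat.pos_of_ne_zero hM
    refine (mul_le_mul_of_nonneg_left h6 (by positivity)).trans (le_of_eq ?_)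
    field_simp

/-- (a) implies that there are no local plane waves -/
theorem a_b (H : QE lam u)
    (ha : ∀ ψ, TF HH ψ → Tendsto (fun n => I4 (u n) ψ) atTop (𝓝 (3 * Ar ψ)))
    {ψ : ℂ → ℝ} (hψ : TF HH ψ) (hψ0 : ∀ z, 0 ≤ ψ z) {ε : ℝ} (hε : 0 < ε) :
    ∃ M0 : ℕ, ∀ M, M0 ≤ M → ∀ᶠ n in atTop,
      ∫⁻ z, ENNReal.ofReal (ψ z / z.im ^ 2) * SS M (lam n) (fun w => (u n w : ℂ)) z ≤
        ENNReal.ofReal ε := by
  have A0 := Ar_nonneg hψ0
  obtain ⟨M0, hM0⟩ := exists_nat_gt (6 * Ar ψ / ε)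
  refine ⟨max M0 1, fun M hM => ?_⟩
  have hM1 : 1 ≤ M := (le_max_right _ _).trans hM
  have hMr : (1:ℝ) ≤ M := by exact_mod_cast hM1
  have hMp : (0:ℝ) < M := by linarith
  have hMM : (M0:ℝ) ≤ M := by exact_mod_cast (le_max_left _ _).trans hM
  have h1 := PE_lim H hM1 hψ
  have h2 := ((ha ψ hψ).sub_const (3 * Ar ψ)).const_mul ((2 * (M:ℝ) ^ 2 + 7) / (9 * M ^ 3))
  rw [sub_self, mul_zero] at h2
  have h3 := ((h1.add h2).const_mul (2 * (M:ℝ)))
  rw [add_zero] at h3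
  have h4 : 2 * (M:ℝ) * ((2 * M ^ 2 + 1) / M ^ 4 * Ar ψ) < ε := by
    have h5 : 2 * (M:ℝ) * ((2 * M ^ 2 + 1) / M ^ 4 * Ar ψ) ≤ 6 * Ar ψ / M := by
      have : 2 * (M:ℝ) * ((2 * M ^ 2 + 1) / M ^ 4 * Ar ψ) =
          (4 * M ^ 2 + 2) / M ^ 2 * (Ar ψ / M) := by
        field_simp; ring
      rw [this]
      have h6 : (4 * (M:ℝ) ^ 2 + 2) / M ^ 2 ≤ 6 := by
        rw [div_le_iff₀ (by positivity)]
        nlinarith
      refine (mul_le_mul_of_nonneg_right h6 (by positivity)).trans (le_of_eq ?_)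
      ring
    refine h5.trans_lt ?_
    rw [div_lt_iff₀ hMp]
    have h7 : 6 * Ar ψ / ε < M := hM0.trans_le hMM
    rw [div_lt_iff₀ hε] at h7
    linarith
  filter_upwards [h3.eventually (gt_mem_nhds h4)] with n hn
  refine (lint_up M (lam n) (H.sm n) hψ hψ0).trans (ENNReal.ofReal_le_ofReal ?_)
  have e : 2 * (M:ℝ) * (PE M (lam n) (u n) ψ - (2 * M ^ 2 + 7) / (9 * M ^ 3) *
      (I4 (u n) ψ - 3 * Ar ψ) + (2 * M ^ 2 + 7) / (9 * M ^ 3) * (I4 (u n) ψ - 3 * Ar ψ)) =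
      2 * M * PE M (lam n) (u n) ψ := by ring
  rw [e] at hn
  exact hn.le

/-- no local plane waves implies the Gaussian fourth moment -/
theorem b_a (H : QE lam u)
    (hb : ∀ ψ, TF HH ψ → (∀ z, 0 ≤ ψ z) → ∀ ε, 0 < ε → ∃ M : ℕ, 1 ≤ M ∧ ∀ᶠ n in atTop,
      ∫⁻ z, ENNReal.ofReal (ψ z / z.im ^ 2) * SS M (lam n) (fun w => (u n w : ℂ)) z ≤
        ENNReal.ofReal ε) :
    ∀ ψ, TF HH ψ → Tendsto (fun n => I4 (u n) ψ) atTop (𝓝 (3 * Ar ψ)) := by
  have I4_int : ∀ {ψ : ℂ → ℝ}, TF HH ψ → ∀ n,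
      Integrable (fun z => ψ z * (u n z ^ 2) ^ 2 / z.im ^ 2) := by
    intro ψ hψ n
    refine (int_c hψ ((((H.sm n).continuousOn).pow 2).pow 2)).congr
      (Eventually.of_forall fun z => ?_)
    show ψ z / z.im ^ 2 * (u n z ^ 2) ^ 2 = ψ z * (u n z ^ 2) ^ 2 / z.im ^ 2
    ring
  have I4_add : ∀ (ψ χ : ℂ → ℝ), TF HH ψ → TF HH χ → ∀ (c : ℝ) (n : ℕ),
      I4 (u n) (fun z => ψ z + c * χ z) = I4 (u n) ψ + c * I4 (u n) χ := by
    intro ψ χ hψ hχ c n
    unfold I4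
    rw [← integral_const_mul, ← integral_add (I4_int hψ n) ((I4_int hχ n).const_mul c)]
    congr 1; funext z; ring
  refine sgn (a := fun ψ n => I4 (u n) ψ) (b := fun ψ => 3 * Ar ψ) I4_add
    (fun ψ χ hψ hχ c => by rw [Ar_add ψ χ hψ hχ c]; ring) ?_
  intro ψ hψ hψ0
  have A0 := Ar_nonneg hψ0
  show Tendsto (fun n => I4 (u n) ψ) atTop (𝓝 (3 * Ar ψ))
  rw [Metric.tendsto_atTop']
  intro ε hε
  -- parameters
  set η : ℝ := min (2 / 9) (ε / (54 * (Ar ψ + 1))) with hη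
  have hη0 : 0 < η := lt_min (by norm_num) (by positivity)
  have hη1 : η ≤ 2 / 9 := min_le_left _ _
  have hη2 : η * (54 * (Ar ψ + 1)) ≤ ε := by
    have : η ≤ ε / (54 * (Ar ψ + 1)) := min_le_right _ _
    rwa [le_div_iff₀ (by positivity)] at this
  set B : ℝ := ε * η / 18 with hB
  have hB0 : 0 < B := by positivity
  obtain ⟨M, hM, hev⟩ := hb ψ hψ hψ0 B hB0
  have hMr : (1:ℝ) ≤ M := by exact_mod_cast hM
  have hMp : (0:ℝ) < M := by linarith
  have h1 := (PE_lim H hM hψ).const_mul (M:ℝ)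
  set δ : ℝ := min (ε / 90) (1 / 2) with hδ
  have hδ0 : 0 < δ := lt_min (by positivity) (by norm_num)
  have hδ1 : δ ≤ ε / 90 := min_le_left _ _
  have h2 := h1.eventually (lt_mem_nhds (sub_lt_self _ hδ0))
  have h3 := RR_lim H M hψ hψ0 hδ0
  have h4 := H.low hψ hψ0 hδ0
  obtain ⟨n0, hn0⟩ := eventually_atTop.1 ((hev.and h2).and (h3.and h4))
  refine ⟨n0, fun n hn => ?_⟩
  obtain ⟨⟨g1, g2⟩, g3, g4⟩ := hn0 n hn.le
  have g5 := lint_lo hM (lam n) (H.sm n) hψ hψ0 hη0 hB0.le g1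
  set X := I4 (u n) ψ - 3 * Ar ψ with hX
  have hI : I4 (u n) ψ = X + 3 * Ar ψ := by rw [hX]; ring
  set E := PE M (lam n) (u n) ψ with hE
  have c1 : (2:ℝ) / 9 ≤ M * ((2 * M ^ 2 + 7) / (9 * M ^ 3)) := by
    have : (M:ℝ) * ((2 * M ^ 2 + 7) / (9 * M ^ 3)) = 2 / 9 + 7 / (9 * M ^ 2) := by
      field_simp
    rw [this]
    have : (0:ℝ) ≤ 7 / (9 * M ^ 2) := by positivity
    linarith
  have c2 : (M:ℝ) * ((2 * M ^ 2 + 7) / (9 * M ^ 3)) ≤ 1 := by
    have : (M:ℝ) * ((2 * M ^ 2 + 7) / (9 * M ^ 3)) = (2 * M ^ 2 + 7) / (9 * M ^ 2) := by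
      field_simp
    rw [this, div_le_one (by positivity)]
    nlinarith
  have c3 : 0 ≤ (M:ℝ) * ((2 * M ^ 2 + 1) / M ^ 4 * Ar ψ) := by positivity
  set κ := (M:ℝ) * ((2 * M ^ 2 + 7) / (9 * M ^ 3)) with hκ
  have g6 : κ * X - δ < M * E := by
    have e : (M:ℝ) * (E - (2 * M ^ 2 + 7) / (9 * M ^ 3) * X) = M * E - κ * X := by
      rw [hκ]; ring
    rw [e] at g2
    linarith
  have g7 : η / 2 * ∫ z, ψ z / z.im ^ 2 * RR M (lam n) (fun w => (u n w : ℂ)) z ≤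
      η / 2 * (X + 3 * Ar ψ + δ) := by
    rw [hI] at g3
    exact mul_le_mul_of_nonneg_left g3 (by positivity)
  have g8 : B / (2 * η) = ε / 36 := by rw [hB]; field_simp; ring
  rw [g8] at g5
  have g9 : κ * X - δ < ε / 36 + η / 2 * (X + 3 * Ar ψ + δ) := by linarith
  have g10 : η / 2 * (3 * Ar ψ) ≤ ε / 36 := by nlinarith
  have g11 : η / 2 * δ ≤ δ := by nlinarith
  have hup : X < ε := by
    by_contra hc
    push Not at hc
    have k1 : (κ - η / 2) * X < ε / 36 + ε / 36 + 2 * δ := by nlinarith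
    have k2 : 1 / 9 ≤ κ - η / 2 := by linarith
    have k3 : 1 / 9 * ε ≤ (κ - η / 2) * X := by nlinarith
    linarith
  rw [Real.dist_eq]
  show |I4 (u n) ψ - 3 * Ar ψ| < ε
  rw [← hX, abs_lt]
  constructor
  · linarith
  · exact hup

end

end Pool.Agent.T9h62.PW
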