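import Pool.Agent.T9h62.PW.Main

/-! Limits of the plane wave energies. -/
set_option autoImplicit false
open MeasureTheory Filter Topology Complex
open scoped ContDiff Real ENNReal

namespace Pool.Agent.T9h62.PW

open Pool.Agent.W745.RW (TF dx dy lap GG CC eps)
open Pool.Agent.TH294.RS (TF.mulc TF.zero TF.cint)
open Pool.Agent.T9h62.SQ (HH HH_open inv_sm sgn I4 Ar Ar_int Ar_add Ar_nonneg)
open Pool.Agent.Y265.HY (FD FD_eq FW FM hyp_fourth)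

noncomputable section

/-- the plane wave energy -/
def PE (M : ℕ) (lam : ℝ) (u : ℂ → ℝ) (ψ : ℂ → ℝ) : ℝ :=
  ∫ z, ψ z * QQ M lam (fun w => (u w : ℂ)) z / z.im ^ 2

lemma int_Q4 (M : ℕ) {g : ℂ → ℂ} {F : ℂ → ℕ → ℕ → ℕ → ℕ → ℂ}
    (hI : ∀ i j k l, Integrable (fun z => g z * F z i j k l)) :
    ∫ z, g z * Q4 M (F z) = Q4 M (fun i j k l => ∫ z, g z * F z i j k l) := by
  have hI' : ∀ i j k l, Integrable (fun z => g z * if i + j = k + l then F z i j k l else 0) := by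
    intro i j k l
    split_ifs
    · exact hI i j k l
    · simp
  unfold Q4
  simp only [Finset.mul_sum]
  rw [integral_finsetSum _ fun i _ => integrable_finsetSum _ fun j _ =>
    integrable_finsetSum _ fun k _ => integrable_finsetSum _ fun l _ => hI' i j k l]
  refine Finset.sum_congr rfl fun i _ => ?_
  rw [integral_finsetSum _ fun j _ =>
    integrable_finsetSum _ fun k _ => integrable_finsetSum _ fun l _ => hI' i j k l]
  refine Finset.sum_congr rfl fun j _ => ?_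
  rw [integral_finsetSum _ fun k _ => integrable_finsetSum _ fun l _ => hI' i j k l]
  refine Finset.sum_congr rfl fun k _ => ?_
  rw [integral_finsetSum _ fun l _ => hI' i j k l]
  refine Finset.sum_congr rfl fun l _ => ?_
  split_ifs
  · rfl
  · simp

lemma tendsto_Q4 (M : ℕ) {F : ℕ → ℕ → ℕ → ℕ → ℕ → ℂ} {G : ℕ → ℕ → ℕ → ℕ → ℂ}
    (h : ∀ i j k l, i + j = k + l → Tendsto (fun n => F n i j k l) atTop (𝓝 (G i j k l))) :
    Tendsto (fun n => Q4 M (F n)) atTop (𝓝 (Q4 M G)) := by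
  unfold Q4
  refine tendsto_finsetSum _ fun i _ => tendsto_finsetSum _ fun j _ =>
    tendsto_finsetSum _ fun k _ => tendsto_finsetSum _ fun l _ => ?_
  by_cases hs : i + j = k + l
  · simp only [if_pos hs]; exact h i j k l hs
  · simp only [if_neg hs]; exact tendsto_const_nhds

lemma tst {ψ : ℂ → ℝ} (hψ : TF HH ψ) : TF HH (fun z => ψ z / z.im ^ 2) :=
  TF.mulc HH_open hψ inv_sm

lemma PE_c (M : ℕ) (lam : ℝ) {u : ℂ → ℝ} (hu : ContDiffOn ℝ ∞ u HH) {ψ : ℂ → ℝ} (hψ : TF HH ψ) :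
    ((PE M lam u ψ : ℝ) : ℂ) = 1 / M ^ 4 * Q4 M (fun i j k l =>
      (-1) ^ (k + l) * FM lam u ψ i j (-k) (-l)) := by
  have hI : ∀ i j k l : ℕ, Integrable (fun z => ((ψ z / z.im ^ 2 : ℝ) : ℂ) *
      ((-1) ^ (k + l) * (FW lam u i z * FW lam u j z * FW lam u (-(k:ℤ)) z *
        FW lam u (-(l:ℤ)) z))) := by
    intro i j k l
    exact TF.cint (tst hψ) (continuousOn_const.mul ((((FW_cont lam hu i).mul
      (FW_cont lam hu j)).mul (FW_cont lam hu (-k))).mul (FW_cont lam hu (-l))))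
  unfold PE
  rw [← integral_complex_ofReal]
  have h1 : ∀ z, ((ψ z * QQ M lam (fun w => (u w : ℂ)) z / z.im ^ 2 : ℝ) : ℂ) =
      1 / M ^ 4 * (((ψ z / z.im ^ 2 : ℝ) : ℂ) * Q4 M (fun i j k l =>
      (-1) ^ (k + l) * (FW lam u i z * FW lam u j z * FW lam u (-(k:ℤ)) z *
        FW lam u (-(l:ℤ)) z))) := by
    intro z
    have h2 := QQ_c M lam u z
    have h3 : (ψ z * QQ M lam (fun w => (u w : ℂ)) z / z.im ^ 2 : ℝ) =
      ψ z / z.im ^ 2 * QQ M lam (fun w => (u w : ℂ)) z := by ring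
    rw [h3, ofReal_mul, h2]; ring
  simp only [h1]
  rw [integral_const_mul, int_Q4 M hI]
  congr 1
  refine Q4_congr fun i j k l _ => ?_
  unfold FM
  rw [← integral_const_mul]
  congr 1; funext z; ring

lemma FM0 (lam : ℝ) (u ψ : ℂ → ℝ) : FM lam u ψ 0 0 0 0 = ((I4 u ψ : ℝ) : ℂ) := by
  unfold FM I4
  rw [← integral_complex_ofReal]
  congr 1; funext z
  have : FW lam u 0 z = (u z : ℂ) := rfl
  rw [this]
  push_cast; ring

/-- the hypotheses -/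
structure QE (lam : ℕ → ℝ) (u : ℕ → ℂ → ℝ) : Prop where
  pos : ∀ n, 0 < lam n
  lim : Tendsto lam atTop atTop
  sm : ∀ n, ContDiffOn ℝ ∞ (u n) HH
  pde : ∀ n, ∀ z ∈ HH, z.im ^ 2 * lap (u n) z + lam n * u n z = 0
  qe : ∀ φ, TF HH φ → ∀ k : ℕ, Tendsto (fun n => ∫ z, ((φ z / z.im ^ 2 : ℝ) : ℂ) *
      ((u n z : ℂ) * (FD (lam n))^[k] (fun w => (u n w : ℂ)) z)) atTop
      (𝓝 (if k = 0 then ((∫ z, φ z / z.im ^ 2 : ℝ) : ℂ) else 0))

variable {lam : ℕ → ℝ} {u : ℕ → ℂ → ℝ}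

lemma QE.four (H : QE lam u) {φ : ℂ → ℝ} (hφ : TF HH φ) {a b c d : ℤ} (hs : a + b + c + d = 0) :
    Tendsto (fun n => FM (lam n) (u n) φ a b c d - eps a b c d * ((I4 (u n) φ : ℝ) : ℂ)) atTop
      (𝓝 ((GG a b c d - 3 * eps a b c d) * ((Ar φ : ℝ) : ℂ))) := by
  have h := (hyp_fourth HH_open (fun z hz => hz) H.pos H.lim H.sm H.pde H.qe hφ).2.1 a b c d 0
    (by rw [hs]; ring)
  have h0 : GG 0 0 0 0 = 3 := by simp [GG, CC]; norm_num
  rw [show (2 * 0 : ℤ) = 0 by norm_num] at h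
  simp only [FM0, h0] at h
  rw [mul_comm (eps a b c d) 3] at h
  exact h

lemma QE.low (H : QE lam u) {φ : ℂ → ℝ} (hφ : TF HH φ) (hφ0 : ∀ z, 0 ≤ φ z) {ε : ℝ} (hε : 0 < ε) :
    ∀ᶠ n in atTop, -ε ≤ I4 (u n) φ - 3 * Ar φ := by
  have h := (hyp_fourth HH_open (fun z hz => hz) H.pos H.lim H.sm H.pde H.qe hφ).2.2 hφ0 0 0 0 0
    ε hε
  filter_upwards [h] with n hn
  have h1 := (norm_nonneg _).trans hn
  have h2 : (∫ z, φ z / z.im ^ 2 * u n z ^ 4) = I4 (u n) φ := by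
    unfold I4; congr 1; funext z; ring
  rw [h2] at h1
  unfold Ar
  linarith

/-- **the exact formula** -/
theorem PE_lim (H : QE lam u) {M : ℕ} (hM : 1 ≤ M) {ψ : ℂ → ℝ} (hψ : TF HH ψ) :
    Tendsto (fun n => PE M (lam n) (u n) ψ - (2 * M ^ 2 + 7) / (9 * M ^ 3) *
      (I4 (u n) ψ - 3 * Ar ψ)) atTop (𝓝 ((2 * M ^ 2 + 1) / M ^ 4 * Ar ψ)) := by
  have hM0 : (M:ℝ) ≠ 0 := by exact_mod_cast (by omega : M ≠ 0)
  have hMc : (M:ℂ) ≠ 0 := by exact_mod_cast (by omega : M ≠ 0)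
  have h1 := tendsto_Q4 M (F := fun n i j k l => (-1) ^ (k + l) * (FM (lam n) (u n) ψ i j (-k) (-l)
      - eps i j (-k) (-l) * ((I4 (u n) ψ : ℝ) : ℂ)))
    (G := fun i j k l => (-1) ^ (k + l) * ((GG i j (-k) (-l) - 3 * eps i j (-k) (-l)) *
      ((Ar ψ : ℝ) : ℂ)))
    (fun i j k l h => (H.four hψ (by omega)).const_mul _)
  have e1 : Q4 M (fun i j k l => (-1) ^ (k + l) * ((GG i j (-k) (-l) - 3 * eps i j (-k) (-l)) *
      ((Ar ψ : ℝ) : ℂ))) = ((2 * M ^ 2 + 1) - 3 * ((2 * M ^ 3 + 7 * M) / 9)) * ((Ar ψ : ℝ) : ℂ) := by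
    rw [← GG_sum hM, ← eps_sum M]
    have : ∀ i j k l : ℕ, (-1:ℂ) ^ (k + l) * ((GG i j (-k) (-l) - 3 * eps i j (-k) (-l)) *
      ((Ar ψ : ℝ) : ℂ)) = ((Ar ψ : ℝ) : ℂ) * ((-1) ^ (k + l) * GG i j (-k) (-l)) +
      (-3 * ((Ar ψ : ℝ) : ℂ)) * ((-1) ^ (k + l) * eps i j (-k) (-l)) := by
      intro i j k l; ring
    simp only [this]
    rw [Q4_add, Q4_mul, Q4_mul]
    ring
  have e2 : ∀ n, Q4 M (fun i j k l => (-1) ^ (k + l) * (FM (lam n) (u n) ψ i j (-k) (-l)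
      - eps i j (-k) (-l) * ((I4 (u n) ψ : ℝ) : ℂ))) =
      M ^ 4 * ((PE M (lam n) (u n) ψ : ℝ) : ℂ) - (2 * M ^ 3 + 7 * M) / 9 *
        ((I4 (u n) ψ : ℝ) : ℂ) := by
    intro n
    rw [PE_c M (lam n) (H.sm n) hψ, ← eps_sum M]
    have : ∀ i j k l : ℕ, (-1:ℂ) ^ (k + l) * (FM (lam n) (u n) ψ i j (-k) (-l)
      - eps i j (-k) (-l) * ((I4 (u n) ψ : ℝ) : ℂ)) =
      (-1) ^ (k + l) * FM (lam n) (u n) ψ i j (-k) (-l) +
      (-((I4 (u n) ψ : ℝ) : ℂ)) * ((-1) ^ (k + l) * eps i j (-k) (-l)) := by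
      intro i j k l; ring
    simp only [this]
    rw [Q4_add, Q4_mul]
    field_simp
    ring
  rw [e1] at h1
  simp only [e2] at h1
  have h2 := (Complex.continuous_re.tendsto _).comp (h1.const_mul (1 / (M:ℂ) ^ 4))
  have e3 : ∀ n, (1 / (M:ℂ) ^ 4 * (M ^ 4 * ((PE M (lam n) (u n) ψ : ℝ) : ℂ) -
      (2 * M ^ 3 + 7 * M) / 9 * ((I4 (u n) ψ : ℝ) : ℂ))) =
      ((PE M (lam n) (u n) ψ - (2 * M ^ 2 + 7) / (9 * M ^ 3) * I4 (u n) ψ : ℝ) : ℂ) := by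
    intro n
    push_cast
    field_simp
  have e4 : (1 / (M:ℂ) ^ 4 * (((2 * M ^ 2 + 1) - 3 * ((2 * M ^ 3 + 7 * M) / 9)) *
      ((Ar ψ : ℝ) : ℂ))) = (((2 * M ^ 2 + 1) / M ^ 4 * Ar ψ -
        3 * ((2 * M ^ 2 + 7) / (9 * M ^ 3)) * Ar ψ : ℝ) : ℂ) := by
    push_cast
    field_simp
  simp only [Function.comp_def, e3, e4, ofReal_re] at h2
  have h3 := h2.add_const (3 * ((2 * M ^ 2 + 7) / (9 * M ^ 3)) * Ar ψ)
  rw [sub_add_cancel] at h3
  refine h3.congr fun n => ?_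
  ring

end

end Pool.Agent.T9h62.PW
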