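import Pool.Agent.T9h62.PW.Avg
import Pool.Agent.T9h62.SQ.Eqv

/-! Local plane wave coefficients and the fourth moment. -/
set_option autoImplicit false
open MeasureTheory Filter Topology Complex
open scoped ContDiff Real ENNReal

namespace Pool.Agent.T9h62.PW

open Pool.Agent.W745.RW (TF dx dy lap GG CC eps)
open Pool.Agent.TH294.RS (TF.mulc TF.zero TF.cint)
open Pool.Agent.T9h62.SQ (HH HH_open inv_sm sgn I4 Ar Ar_int Ar_add Ar_nonneg)
open Pool.Agent.Y265.HY (FD FD_eq FW FM hyp_fourth)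

noncomputable section

/-- the local plane wave coefficient -/
def AA (M : ℕ) (lam : ℝ) (f : ℂ → ℂ) (θ : ℝ) (z : ℂ) : ℂ :=
  (1 / M) * ∑ k ∈ Finset.range M, (-I * Complex.exp (θ * I)) ^ k * (FD lam)^[k] f z

lemma AA_eq (M : ℕ) (lam : ℝ) (f : ℂ → ℂ) (θ : ℝ) (z : ℂ) :
    AA M lam f θ z = (1 / M) * P M (fun k => (-I) ^ k * (FD lam)^[k] f z) θ := by
  unfold AA P
  congr 1
  refine Finset.sum_congr rfl fun k _ => ?_
  rw [mul_pow, ← Complex.exp_nat_mul]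
  have : (k : ℂ) * (θ * I) = k * θ * I := by ring
  rw [this]; ring

lemma AA_norm (M : ℕ) (lam : ℝ) (f : ℂ → ℂ) (θ : ℝ) (z : ℂ) :
    ‖AA M lam f θ z‖ ^ 4 = 1 / M ^ 4 * ‖P M (fun k => (-I) ^ k * (FD lam)^[k] f z) θ‖ ^ 4 := by
  rw [AA_eq, norm_mul, mul_pow]
  congr 1
  rw [norm_div, norm_one, Complex.norm_natCast, div_pow, one_pow]

/-- the mean fourth power over the directions -/
def QQ (M : ℕ) (lam : ℝ) (f : ℂ → ℂ) (z : ℂ) : ℝ :=
  (1 / (2 * π)) * ∫ θ in (0:ℝ)..(2 * π), ‖AA M lam f θ z‖ ^ 4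

lemma QQ_eq (M : ℕ) (lam : ℝ) (f : ℂ → ℂ) (z : ℂ) :
    QQ M lam f z = 1 / M ^ 4 * ((1 / (2 * π)) * ∫ θ in (0:ℝ)..(2 * π),
      ‖P M (fun k => (-I) ^ k * (FD lam)^[k] f z) θ‖ ^ 4) := by
  unfold QQ
  simp only [AA_norm]
  rw [intervalIntegral.integral_const_mul]
  ring

lemma QQ_nonneg (M : ℕ) (lam : ℝ) (f : ℂ → ℂ) (z : ℂ) : 0 ≤ QQ M lam f z := by
  unfold QQ
  have := Real.pi_pos
  refine mul_nonneg (by positivity) (intervalIntegral.integral_nonneg (by positivity)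
    fun θ _ => by positivity)

/-- the supremum over the directions -/
def SS (M : ℕ) (lam : ℝ) (f : ℂ → ℂ) (z : ℂ) : ℝ≥0∞ :=
  ⨆ θ : ℝ, ENNReal.ofReal (‖AA M lam f θ z‖ ^ 4)

lemma SS_le (M : ℕ) (lam : ℝ) (f : ℂ → ℂ) (z : ℂ) :
    SS M lam f z ≤ ENNReal.ofReal (2 * M * QQ M lam f z) := by
  refine iSup_le fun θ => ENNReal.ofReal_le_ofReal ?_
  rw [AA_norm, QQ_eq]
  have := sup4 M (fun k => (-I) ^ k * (FD lam)^[k] f z) θ
  have h0 : (0:ℝ) ≤ 1 / M ^ 4 := by positivity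
  refine (mul_le_mul_of_nonneg_left this h0).trans (le_of_eq ?_)
  ring

/-- the mean fourth power of the derivatives -/
def RR (M : ℕ) (lam : ℝ) (f : ℂ → ℂ) (z : ℂ) : ℝ :=
  1 / M * ∑ k ∈ Finset.range M, ‖(FD lam)^[k] f z‖ ^ 4

lemma QQ_le {M : ℕ} (hM : 1 ≤ M) (lam : ℝ) (f : ℂ → ℂ) (z : ℂ) {η : ℝ} (hη : 0 < η) :
    ENNReal.ofReal (M * QQ M lam f z) ≤ ENNReal.ofReal (1 / (2 * η)) * SS M lam f z +
      ENNReal.ofReal (η / 2 * RR M lam f z) := by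
  have hM0 : (0:ℝ) < M := by exact_mod_cast hM
  have hfin : SS M lam f z ≠ ⊤ := ne_top_of_le_ne_top ENNReal.ofReal_ne_top (SS_le M lam f z)
  set s := (SS M lam f z).toReal with hs
  have e1 : SS M lam f z = ENNReal.ofReal s := (ENNReal.ofReal_toReal hfin).symm
  have hs0 : 0 ≤ s := ENNReal.toReal_nonneg
  have h1 : ∀ θ, ‖AA M lam f θ z‖ ^ 4 ≤ s := by
    intro θ
    have h2 : ENNReal.ofReal (‖AA M lam f θ z‖ ^ 4) ≤ SS M lam f z :=
      le_iSup (fun θ : ℝ => ENNReal.ofReal (‖AA M lam f θ z‖ ^ 4)) θ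
    rw [e1] at h2
    exact (ENNReal.ofReal_le_ofReal_iff hs0).1 h2
  have h3 : ∀ θ, ‖P M (fun k => (-I) ^ k * (FD lam)^[k] f z) θ‖ ^ 4 ≤ M ^ 4 * s := by
    intro θ
    have h4 := h1 θ
    rw [AA_norm] at h4
    have h5 := mul_le_mul_of_nonneg_left h4 (by positivity : (0:ℝ) ≤ M ^ 4)
    refine le_trans (le_of_eq ?_) h5
    field_simp
  have h6 := mean4 M (fun k => (-I) ^ k * (FD lam)^[k] f z) h3 (mul_pos hη hM0)
  have e2 : ∀ k, ‖(-I) ^ k * (FD lam)^[k] f z‖ = ‖(FD lam)^[k] f z‖ := by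
    intro k
    rw [norm_mul, norm_pow, norm_neg, norm_I, one_pow, one_mul]
  simp only [e2] at h6
  have h7 : M * QQ M lam f z ≤ 1 / (2 * η) * s + η / 2 * RR M lam f z := by
    rw [QQ_eq]
    unfold RR
    have h8 := mul_le_mul_of_nonneg_left h6 (by positivity : (0:ℝ) ≤ 1 / M ^ 3)
    refine le_trans (le_of_eq ?_) (h8.trans (le_of_eq ?_))
    · field_simp
    · field_simp
  have hR0 : 0 ≤ RR M lam f z := by unfold RR; positivity
  rw [e1, ← ENNReal.ofReal_mul (by positivity), ← ENNReal.ofReal_add (by positivity) (by positivity)]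
  exact ENNReal.ofReal_le_ofReal h7

/-- conjugates of the ladder -/
lemma FW_conj (lam : ℝ) (u : ℂ → ℝ) (k : ℕ) (z : ℂ) :
    (starRingEnd ℂ) ((FD lam)^[k] (fun w => (u w : ℂ)) z) = (-1) ^ k * FW lam u (-(k:ℤ)) z := by
  cases k with
  | zero =>
    show (starRingEnd ℂ) (u z : ℂ) = (-1) ^ 0 * (u z : ℂ)
    rw [conj_ofReal, pow_zero, one_mul]
  | succ k =>
    show _ = (-1) ^ (k + 1) * ((-1) ^ (k + 1) *
      (starRingEnd ℂ) ((FD lam)^[k + 1] (fun w => (u w : ℂ)) z))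
    rw [← mul_assoc, neg_one_sq_pow, one_mul]

lemma FW_nat (lam : ℝ) (u : ℂ → ℝ) (k : ℕ) (z : ℂ) :
    (FD lam)^[k] (fun w => (u w : ℂ)) z = FW lam u (k:ℤ) z := rfl

lemma QQ_c (M : ℕ) (lam : ℝ) (u : ℂ → ℝ) (z : ℂ) :
    ((QQ M lam (fun w => (u w : ℂ)) z : ℝ) : ℂ) = 1 / M ^ 4 * Q4 M (fun i j k l =>
      (-1) ^ (k + l) * (FW lam u i z * FW lam u j z * FW lam u (-(k:ℤ)) z *
        FW lam u (-(l:ℤ)) z)) := by
  rw [QQ_eq, ofReal_mul, avg4]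
  congr 1
  · push_cast; ring
  refine Q4_congr fun i j k l h => ?_
  rw [map_mul, map_mul, FW_conj, FW_conj, map_pow, map_pow, map_neg, conj_I, neg_neg,
    FW_nat, FW_nat]
  have h1 : (-I) ^ i * (-I) ^ j * (I ^ k * I ^ l) = (1:ℂ) := by
    rw [← pow_add, ← pow_add, h, ← mul_pow]
    simp
  have h2 : (-1:ℂ) ^ (k + l) = (-1) ^ k * (-1) ^ l := pow_add _ _ _
  rw [h2]
  linear_combination (FW lam u i z * FW lam u j z * ((-1) ^ k * FW lam u (-(k:ℤ)) z) *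
    ((-1) ^ l * FW lam u (-(l:ℤ)) z)) * h1

lemma FDk_cont (lam : ℝ) {u : ℂ → ℝ} (hu : ContDiffOn ℝ ∞ u HH) (k : ℕ) :
    ContinuousOn ((FD lam)^[k] (fun w => (u w : ℂ))) HH := by
  rw [FD_eq]
  exact (Pool.Agent.TH294.RS.DPk_sm HH_open imCLM.contDiff.contDiffOn (1 / √lam)
    (Pool.Agent.TH294.RS.cxa hu) k).continuousOn

lemma FW_cont (lam : ℝ) {u : ℂ → ℝ} (hu : ContDiffOn ℝ ∞ u HH) (k : ℤ) :
    ContinuousOn (FW lam u k) HH := by
  cases k with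
  | ofNat k => exact FDk_cont lam hu k
  | negSucc k =>
    exact continuousOn_const.mul (Complex.continuous_conj.comp_continuousOn (FDk_cont lam hu (k+1)))

end

end Pool.Agent.T9h62.PW
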