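import Pool.Agent.Y265.HY.N5

/-! Finite sums for the fourth moments of the local plane wave coefficients. -/
set_option autoImplicit false
open Finset

namespace Pool.Agent.T9h62.PW

open Pool.Agent.W745.RW

noncomputable section

/-- the distance of two natural numbers -/
def dd (i k : ℕ) : ℂ := (((i - k) + (k - i) : ℕ) : ℂ)

lemma dd_self (m : ℕ) : dd m m = 0 := by simp [dd]

lemma dd_lt {i m : ℕ} (h : i < m) : dd i m = m - i := by
  unfold dd
  rw [Nat.sub_eq_zero_of_le h.le, zero_add, Nat.cast_sub h.le]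

lemma dd_lt' {i m : ℕ} (h : i < m) : dd m i = m - i := by
  unfold dd
  rw [Nat.sub_eq_zero_of_le h.le, add_zero, Nat.cast_sub h.le]

lemma cnt {M i k : ℕ} (hi : i < M) (hk : k < M) :
    ∑ j ∈ range M, ∑ l ∈ range M, (if i + j = k + l then (1:ℂ) else 0) = M - dd i k := by
  have key : ∀ e : ℕ, e < M → ∑ j ∈ range M, (if j + e < M then (1:ℂ) else 0) = M - e := by
    intro e he
    rw [Finset.sum_boole]
    have : (range M).filter (fun j => j + e < M) = range (M - e) := by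
      ext j; simp only [mem_filter, mem_range]; omega
    rw [this, card_range, Nat.cast_sub he.le]
  rcases le_total k i with h | h
  · obtain ⟨e, rfl⟩ := Nat.exists_eq_add_of_le h
    have h1 : ∀ j ∈ range M, ∑ l ∈ range M, (if k + e + j = k + l then (1:ℂ) else 0) =
        if j + e < M then 1 else 0 := by
      intro j _
      have h2 : ∀ l, (if k + e + j = k + l then (1:ℂ) else 0) = if j + e = l then 1 else 0 := by
        intro l
        congr 1
        apply propext; omega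
      simp only [h2, Finset.sum_ite_eq, mem_range]
    rw [sum_congr rfl h1, key e (by omega)]
    unfold dd
    rw [Nat.sub_eq_zero_of_le h, add_zero, Nat.add_sub_cancel_left]
  · obtain ⟨e, rfl⟩ := Nat.exists_eq_add_of_le h
    rw [sum_comm]
    have h1 : ∀ l ∈ range M, ∑ j ∈ range M, (if i + j = i + e + l then (1:ℂ) else 0) =
        if l + e < M then 1 else 0 := by
      intro l _
      have h2 : ∀ j, (if i + j = i + e + l then (1:ℂ) else 0) = if j = l + e then 1 else 0 := by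
        intro j
        congr 1
        apply propext; omega
      simp only [h2, Finset.sum_ite_eq', mem_range]
    rw [sum_congr rfl h1, key e (by omega)]
    unfold dd
    rw [Nat.sub_eq_zero_of_le h, zero_add, Nat.add_sub_cancel_left]

lemma dbl_succ (g : ℕ → ℕ → ℂ) (m : ℕ) :
    ∑ i ∈ range (m+1), ∑ k ∈ range (m+1), g i k =
      ∑ i ∈ range m, ∑ k ∈ range m, g i k + ∑ i ∈ range m, (g i m + g m i) + g m m := by
  simp only [sum_range_succ, sum_add_distrib]
  ring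

lemma s1 (m : ℕ) (c : ℂ) : ∑ i ∈ range m, (c - (i:ℂ)) = m * c - m * (m - 1) / 2 := by
  induction m with
  | zero => simp
  | succ m ih => rw [sum_range_succ, ih]; push_cast; ring

lemma s2 (m : ℕ) (c : ℂ) : ∑ i ∈ range m, (-1:ℂ) ^ i * (c - (i:ℂ)) =
    c * (1 - (-1) ^ m) / 2 + (-1) ^ m * (2 * m - 1) / 4 + 1 / 4 := by
  induction m with
  | zero => simp; norm_num
  | succ m ih => rw [sum_range_succ, ih]; push_cast; ring

lemma dsum0 (M : ℕ) : ∑ i ∈ range M, ∑ k ∈ range M, dd i k = (M ^ 3 - M) / 3 := by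
  induction M with
  | zero => simp
  | succ m ih =>
    rw [dbl_succ, ih, dd_self]
    have h : ∑ i ∈ range m, (dd i m + dd m i) = ∑ i ∈ range m, 2 * ((m:ℂ) - i) := by
      refine sum_congr rfl fun i hi => ?_
      have := mem_range.1 hi
      rw [dd_lt this, dd_lt' this]; ring
    rw [h, ← mul_sum, s1]
    push_cast; ring

lemma neg_one_sq_pow (m : ℕ) : ((-1:ℂ) ^ m) * ((-1:ℂ) ^ m) = 1 := by
  rw [← mul_pow]; norm_num

lemma dsum1 (M : ℕ) : ∑ i ∈ range M, ∑ k ∈ range M, (-1:ℂ) ^ (i + k) * dd i k =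
    - (M * (1 + (-1) ^ M) / 2) := by
  induction M with
  | zero => simp
  | succ m ih =>
    rw [dbl_succ, ih, dd_self]
    have h : ∑ i ∈ range m, ((-1:ℂ) ^ (i + m) * dd i m + (-1:ℂ) ^ (m + i) * dd m i) =
        2 * (-1) ^ m * ∑ i ∈ range m, (-1:ℂ) ^ i * ((m:ℂ) - i) := by
      rw [mul_sum]
      refine sum_congr rfl fun i hi => ?_
      have := mem_range.1 hi
      rw [dd_lt this, dd_lt' this, pow_add, pow_add]; ring
    rw [h, s2]
    have h2 := neg_one_sq_pow m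
    push_cast
    rw [pow_succ]
    linear_combination (-(m:ℂ) + (2 * m - 1) / 2) * h2

lemma dsum2 (M : ℕ) : ∑ i ∈ range M, ∑ k ∈ range M, (-1:ℂ) ^ (i + k) = (1 - (-1) ^ M) / 2 := by
  induction M with
  | zero => simp
  | succ m ih =>
    have h0 : ∀ n : ℕ, ∑ i ∈ range n, (-1:ℂ) ^ i = (1 - (-1) ^ n) / 2 := by
      intro n
      induction n with
      | zero => simp
      | succ n ih => rw [sum_range_succ, ih]; ring
    rw [dbl_succ, ih]
    have h : ∑ i ∈ range m, ((-1:ℂ) ^ (i + m) + (-1:ℂ) ^ (m + i)) =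
        2 * (-1) ^ m * ∑ i ∈ range m, (-1:ℂ) ^ i := by
      rw [mul_sum]
      refine sum_congr rfl fun i _ => ?_
      rw [pow_add, pow_add]; ring
    rw [h, h0]
    have h2 := neg_one_sq_pow m
    rw [pow_succ, pow_add]
    linear_combination (-(0:ℂ)) * h2

/-- sums over `i + j = k + l` -/
def Q4 (M : ℕ) (F : ℕ → ℕ → ℕ → ℕ → ℂ) : ℂ :=
  ∑ i ∈ range M, ∑ j ∈ range M, ∑ k ∈ range M, ∑ l ∈ range M, if i + j = k + l then F i j k l else 0

lemma Q4_congr {M : ℕ} {F G : ℕ → ℕ → ℕ → ℕ → ℂ}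
    (h : ∀ i j k l, i + j = k + l → F i j k l = G i j k l) : Q4 M F = Q4 M G := by
  unfold Q4
  refine sum_congr rfl fun i _ => sum_congr rfl fun j _ => sum_congr rfl fun k _ =>
    sum_congr rfl fun l _ => ?_
  by_cases hs : i + j = k + l
  · rw [if_pos hs, if_pos hs, h i j k l hs]
  · rw [if_neg hs, if_neg hs]

lemma Q4_add (M : ℕ) (F G : ℕ → ℕ → ℕ → ℕ → ℂ) :
    Q4 M (fun i j k l => F i j k l + G i j k l) = Q4 M F + Q4 M G := by
  unfold Q4
  simp only [← sum_add_distrib]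
  refine sum_congr rfl fun i _ => sum_congr rfl fun j _ => sum_congr rfl fun k _ =>
    sum_congr rfl fun l _ => ?_
  split_ifs <;> simp

lemma Q4_mul (M : ℕ) (c : ℂ) (F : ℕ → ℕ → ℕ → ℕ → ℂ) :
    Q4 M (fun i j k l => c * F i j k l) = c * Q4 M F := by
  unfold Q4
  simp only [mul_sum]
  refine sum_congr rfl fun i _ => sum_congr rfl fun j _ => sum_congr rfl fun k _ =>
    sum_congr rfl fun l _ => ?_
  split_ifs <;> simp

lemma Q4_swap (M : ℕ) (F : ℕ → ℕ → ℕ → ℕ → ℂ) :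
    Q4 M (fun i j k l => F i j l k) = Q4 M F := by
  unfold Q4
  refine sum_congr rfl fun i _ => sum_congr rfl fun j _ => ?_
  rw [sum_comm]
  refine sum_congr rfl fun k _ => sum_congr rfl fun l _ => ?_
  rw [add_comm l k]

/-- sums of functions of `i, k` -/
lemma Q4_ik (M : ℕ) (g : ℕ → ℕ → ℂ) :
    Q4 M (fun i _ k _ => g i k) = ∑ i ∈ range M, ∑ k ∈ range M, g i k * (M - dd i k) := by
  unfold Q4
  refine sum_congr rfl fun i hi => ?_
  rw [sum_comm]
  refine sum_congr rfl fun k hk => ?_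
  rw [← cnt (mem_range.1 hi) (mem_range.1 hk), mul_sum]
  refine sum_congr rfl fun j _ => ?_
  rw [mul_sum]
  refine sum_congr rfl fun l _ => ?_
  split_ifs <;> simp

lemma T0_eq (M : ℕ) : Q4 M (fun _ _ _ _ => 1) = (2 * M ^ 3 + M) / 3 := by
  have h := Q4_ik M (fun _ _ => 1)
  rw [h]
  simp only [one_mul, sum_sub_distrib, dsum0, sum_const, card_range, nsmul_eq_mul]
  ring

lemma T1_eq (M : ℕ) : Q4 M (fun i _ k _ => (-1) ^ (i + k)) = M := by
  have h := Q4_ik M (fun i k => (-1) ^ (i + k))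
  rw [h]
  have h2 : ∀ i k, (-1:ℂ) ^ (i + k) * (M - dd i k) =
      M * (-1:ℂ) ^ (i + k) - (-1:ℂ) ^ (i + k) * dd i k := fun i k => by ring
  simp only [h2, sum_sub_distrib, dsum1, ← mul_sum, dsum2]
  ring

lemma T2_eq (M : ℕ) : Q4 M (fun i _ _ l => (-1) ^ (i + l)) = M := by
  have := Q4_swap M (fun i _ k _ => (-1) ^ (i + k))
  rw [← T1_eq M, ← this]

lemma eps_par {i j k l : ℕ} (h : i + j = k + l) :
    (-1:ℂ) ^ (k + l) * eps i j (-k) (-l) = 1 / 3 * (1 + (-1) ^ (i + k) + (-1) ^ (i + l)) := by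
  have e : ∀ a b : ℕ, (-1:ℂ) ^ (a + b) = if a % 2 = b % 2 then 1 else -1 := by
    intro a b
    split_ifs with hab
    · exact Even.neg_one_pow (by rw [Nat.even_iff]; omega)
    · exact Odd.neg_one_pow (by rw [Nat.odd_iff]; omega)
  unfold eps
  rw [e, e, e]
  rcases Nat.mod_two_eq_zero_or_one i with hi | hi <;>
  rcases Nat.mod_two_eq_zero_or_one j with hj | hj <;>
  rcases Nat.mod_two_eq_zero_or_one k with hk | hk <;>
  rcases Nat.mod_two_eq_zero_or_one l with hl | hl <;>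
  first
  | (exfalso; omega)
  | (rw [hi, hk, hl]
     first
     | (rw [if_pos (c := (i:ℤ) % 2 = (j:ℤ) % 2 ∧ (j:ℤ) % 2 = (-(k:ℤ)) % 2 ∧
          (-(k:ℤ)) % 2 = (-(l:ℤ)) % 2) (by omega)]; norm_num)
     | (rw [if_neg (c := (i:ℤ) % 2 = (j:ℤ) % 2 ∧ (j:ℤ) % 2 = (-(k:ℤ)) % 2 ∧
          (-(k:ℤ)) % 2 = (-(l:ℤ)) % 2) (by omega)]; norm_num))

/-- the sum of the coefficients of the excess -/
lemma eps_sum (M : ℕ) : Q4 M (fun i j k l => (-1) ^ (k + l) * eps i j (-k) (-l)) =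
    (2 * M ^ 3 + 7 * M) / 9 := by
  rw [Q4_congr (G := fun i j k l => 1 / 3 * (1 + (-1) ^ (i + k) + (-1) ^ (i + l)))
    (fun i j k l h => eps_par h), Q4_mul, Q4_add, Q4_add, T0_eq, T1_eq, T2_eq]
  ring

lemma GG_par {i j k l : ℕ} (h : i + j = k + l) :
    (-1:ℂ) ^ (k + l) * GG i j (-k) (-l) = (if i = 0 ∧ j = 0 ∧ k = 0 ∧ l = 0 then 1 else 0) +
      (if i = k ∧ j = l then 1 else 0) + (if i = l ∧ j = k then 1 else 0) := by
  have c1 : CC i j * CC (-k) (-l) = if i = 0 ∧ j = 0 ∧ k = 0 ∧ l = 0 then 1 else 0 := by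
    unfold CC
    by_cases h3 : i = 0 ∧ j = 0 ∧ k = 0 ∧ l = 0
    · obtain ⟨rfl, rfl, rfl, rfl⟩ := h3; simp
    · rw [if_neg h3]
      by_cases h1 : (i:ℤ) + j = 0
      · rw [if_neg (c := -(k:ℤ) + -(l:ℤ) = 0) (by omega), mul_zero]
      · rw [if_neg h1, zero_mul]
  have c2 : CC i (-k) * CC j (-l) = (-1) ^ (k + l) * if i = k ∧ j = l then 1 else 0 := by
    unfold CC
    by_cases h3 : i = k ∧ j = l
    · obtain ⟨rfl, rfl⟩ := h3; simp [pow_add]
    · rw [if_neg h3]
      by_cases h1 : (i:ℤ) + -(k:ℤ) = 0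
      · rw [if_neg (c := (j:ℤ) + -(l:ℤ) = 0) (by omega), mul_zero, mul_zero]
      · rw [if_neg h1, zero_mul, mul_zero]
  have c3 : CC i (-l) * CC j (-k) = (-1) ^ (k + l) * if i = l ∧ j = k then 1 else 0 := by
    unfold CC
    by_cases h3 : i = l ∧ j = k
    · obtain ⟨rfl, rfl⟩ := h3; simp [pow_add]; ring
    · rw [if_neg h3]
      by_cases h1 : (i:ℤ) + -(l:ℤ) = 0
      · rw [if_neg (c := (j:ℤ) + -(k:ℤ) = 0) (by omega), mul_zero, mul_zero]
      · rw [if_neg h1, zero_mul, mul_zero]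
  unfold GG
  rw [c1, c2, c3]
  have h2 := neg_one_sq_pow (k + l)
  have h3 : (-1:ℂ) ^ (k + l) * (if i = 0 ∧ j = 0 ∧ k = 0 ∧ l = 0 then (1:ℂ) else 0) =
      if i = 0 ∧ j = 0 ∧ k = 0 ∧ l = 0 then 1 else 0 := by
    split_ifs with h4
    · obtain ⟨_, _, rfl, rfl⟩ := h4; simp
    · rw [mul_zero]
  linear_combination h3 + ((if i = k ∧ j = l then (1:ℂ) else 0) +
    (if i = l ∧ j = k then (1:ℂ) else 0)) * h2

lemma U2_eq (M : ℕ) : Q4 M (fun i j k l => if i = k ∧ j = l then 1 else 0) = M ^ 2 := by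
  unfold Q4
  have h : ∀ i ∈ range M, ∀ j ∈ range M, ∑ k ∈ range M, ∑ l ∈ range M,
      (if i + j = k + l then (if i = k ∧ j = l then (1:ℂ) else 0) else 0) = 1 := by
    intro i hi j hj
    rw [sum_eq_single i, sum_eq_single j]
    · simp
    · intro l _ hl
      rw [if_neg (c := i = i ∧ j = l) (fun h => hl h.2.symm)]; simp
    · intro hn; exact absurd hj hn
    · intro k _ hk
      refine sum_eq_zero fun l _ => ?_
      rw [if_neg (c := i = k ∧ j = l) (fun h => hk h.1.symm)]; simp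
    · intro hn; exact absurd hi hn
  rw [sum_congr rfl fun i hi => sum_congr rfl fun j hj => h i hi j hj]
  simp [pow_two]

lemma U3_eq (M : ℕ) : Q4 M (fun i j k l => if i = l ∧ j = k then 1 else 0) = M ^ 2 := by
  have := Q4_swap M (fun i j k l => if i = k ∧ j = l then 1 else 0)
  rw [← U2_eq M, ← this]

lemma U1_eq {M : ℕ} (hM : 1 ≤ M) :
    Q4 M (fun i j k l => if i = 0 ∧ j = 0 ∧ k = 0 ∧ l = 0 then 1 else 0) = 1 := by
  unfold Q4
  have h0 : (0:ℕ) ∈ range M := mem_range.2 hM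
  rw [sum_eq_single 0, sum_eq_single 0, sum_eq_single 0, sum_eq_single 0]
  · simp
  · intro l _ hl; simp [hl]
  · intro hn; exact absurd h0 hn
  · intro k _ hk; refine sum_eq_zero fun l _ => ?_; simp [hk]
  · intro hn; exact absurd h0 hn
  · intro j _ hj; refine sum_eq_zero fun k _ => sum_eq_zero fun l _ => ?_; simp [hj]
  · intro hn; exact absurd h0 hn
  · intro i _ hi
    refine sum_eq_zero fun j _ => sum_eq_zero fun k _ => sum_eq_zero fun l _ => ?_; simp [hi]
  · intro hn; exact absurd h0 hn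

/-- the sum of the Gaussian coefficients -/
lemma GG_sum {M : ℕ} (hM : 1 ≤ M) : Q4 M (fun i j k l => (-1) ^ (k + l) * GG i j (-k) (-l)) =
    2 * M ^ 2 + 1 := by
  rw [Q4_congr (G := fun i j k l => (if i = 0 ∧ j = 0 ∧ k = 0 ∧ l = 0 then 1 else 0) +
      (if i = k ∧ j = l then 1 else 0) + (if i = l ∧ j = k then 1 else 0))
    (fun i j k l h => GG_par h), Q4_add, Q4_add, U1_eq hM, U2_eq, U3_eq]
  ring

end

end Pool.Agent.T9h62.PW
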